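import Mathlib

set_option autoImplicit false

/-! Dirichlet inverses and positivity for `1 * 1 * a * conj a`, `a` completely multiplicative with values in the unit disc -/

namespace Pool.Agent.U73.ZF

open ArithmeticFunction Finset
open scoped ComplexConjugate

noncomputable section

/-- the trivial completely multiplicative function -/
def triv : ℕ →*₀ ℂ where
  toFun n := if n = 0 then 0 else 1
  map_zero' := by simp
  map_one' := by simp
  map_mul' := by
    intro m n
    by_cases hm : m = 0 <;> by_cases hn : n = 0 <;> simp [hm, hn]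

theorem triv_apply {n : ℕ} (h : n ≠ 0) : triv n = 1 := by
  change (if n = 0 then (0 : ℂ) else 1) = 1
  simp [h]

/-- the conjugate -/
def cj (a : ℕ →*₀ ℂ) : ℕ →*₀ ℂ where
  toFun n := conj (a n)
  map_zero' := by simp
  map_one' := by simp
  map_mul' := by intro m n; simp

theorem cj_apply (a : ℕ →*₀ ℂ) (n : ℕ) : cj a n = conj (a n) := rfl

def cm (a : ℕ →*₀ ℂ) : ArithmeticFunction ℂ := ⟨fun n => a n, map_zero a⟩

theorem cm_apply (a : ℕ →*₀ ℂ) (n : ℕ) : cm a n = a n := rfl

def mo : ArithmeticFunction ℂ := ((ArithmeticFunction.moebius : ArithmeticFunction ℤ) : ArithmeticFunction ℂ)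

theorem mo_apply (n : ℕ) : mo n = (ArithmeticFunction.moebius n : ℂ) := rfl

def inv (a : ℕ →*₀ ℂ) : ArithmeticFunction ℂ := ArithmeticFunction.pmul mo (cm a)

theorem inv_apply (a : ℕ →*₀ ℂ) (n : ℕ) : inv a n = (ArithmeticFunction.moebius n : ℂ) * a n := rfl

theorem inv_mul (a : ℕ →*₀ ℂ) : inv a * cm a = 1 := by
  have mz : mo * ((ArithmeticFunction.zeta : ArithmeticFunction ℕ) : ArithmeticFunction ℂ) = 1 :=
    ArithmeticFunction.coe_moebius_mul_coe_zeta
  ext n
  rw [ArithmeticFunction.mul_apply]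
  have h1 : ∀ x ∈ n.divisorsAntidiagonal, inv a x.1 * cm a x.2 =
      a n * (mo x.1 * ((ArithmeticFunction.zeta : ArithmeticFunction ℕ) : ArithmeticFunction ℂ) x.2) := by
    intro x hx
    rw [Nat.mem_divisorsAntidiagonal] at hx
    have h2 : x.2 ≠ 0 := by
      rintro h
      rw [h, mul_zero] at hx
      exact hx.2 hx.1.symm
    have h3 : ((ArithmeticFunction.zeta : ArithmeticFunction ℕ) : ArithmeticFunction ℂ) x.2 = 1 := by
      rw [ArithmeticFunction.natCoe_apply, ArithmeticFunction.zeta_apply_ne h2]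
      simp
    rw [h3, ← hx.1, map_mul, inv_apply, cm_apply, mo_apply]
    ring
  rw [Finset.sum_congr rfl h1, ← Finset.mul_sum, ← ArithmeticFunction.mul_apply, mz]
  by_cases h : n = 1
  · subst h
    simp
  · rw [ArithmeticFunction.one_apply_ne h, mul_zero]

/-- multiplication by `log n`, a derivation -/
def D (f : ArithmeticFunction ℂ) : ArithmeticFunction ℂ := ⟨fun n => (Real.log n : ℂ) * f n, by simp⟩

theorem D_apply (f : ArithmeticFunction ℂ) (n : ℕ) : D f n = (Real.log n : ℂ) * f n := rfl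

theorem D_mul (f g : ArithmeticFunction ℂ) : D (f * g) = D f * g + f * D g := by
  ext n
  rw [D_apply, ArithmeticFunction.add_apply, ArithmeticFunction.mul_apply, ArithmeticFunction.mul_apply,
    ArithmeticFunction.mul_apply, ← Finset.sum_add_distrib, Finset.mul_sum]
  refine Finset.sum_congr rfl fun x hx => ?_
  rw [Nat.mem_divisorsAntidiagonal] at hx
  obtain ⟨h1, h2⟩ := hx
  have hx1 : x.1 ≠ 0 := by rintro h; rw [h, zero_mul] at h1; exact h2 h1.symm
  have hx2 : x.2 ≠ 0 := by rintro h; rw [h, mul_zero] at h1; exact h2 h1.symm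
  have : Real.log n = Real.log x.1 + Real.log x.2 := by
    rw [← h1, Nat.cast_mul, Real.log_mul (by exact_mod_cast hx1) (by exact_mod_cast hx2)]
  rw [D_apply, D_apply, this]
  push_cast
  ring

theorem D_one : D 1 = 0 := by
  ext n
  rw [D_apply]
  by_cases h : n = 1
  · subst h; simp
  · rw [ArithmeticFunction.one_apply_ne h]; simp

def La (a : ℕ →*₀ ℂ) : ArithmeticFunction ℂ := ⟨fun n => (ArithmeticFunction.vonMangoldt n : ℂ) * a n, by simp⟩

theorem La_apply (a : ℕ →*₀ ℂ) (n : ℕ) : La a n = (ArithmeticFunction.vonMangoldt n : ℂ) * a n := rfl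

theorem D_cm (a : ℕ →*₀ ℂ) : D (cm a) = cm a * La a := by
  ext n
  rw [D_apply, ArithmeticFunction.mul_apply, cm_apply]
  have h1 : ∀ x ∈ n.divisorsAntidiagonal, cm a x.1 * La a x.2 =
      a n * (ArithmeticFunction.vonMangoldt x.2 : ℂ) := by
    intro x hx
    rw [Nat.mem_divisorsAntidiagonal] at hx
    rw [cm_apply, La_apply, ← hx.1, map_mul]
    ring
  rw [Finset.sum_congr rfl h1, ← Finset.mul_sum,
    Nat.sum_divisorsAntidiagonal' (f := fun _ y => (ArithmeticFunction.vonMangoldt y : ℂ))]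
  have := ArithmeticFunction.vonMangoldt_sum (n := n)
  have h2 : ∑ i ∈ n.divisors, (ArithmeticFunction.vonMangoldt i : ℂ) = (Real.log n : ℂ) := by
    rw [← this]; push_cast; rfl
  rw [h2]
  ring

theorem D_inv (a : ℕ →*₀ ℂ) : D (inv a) = -(inv a * La a) := by
  have h1 : D (inv a) * cm a + inv a * D (cm a) = 0 := by rw [← D_mul, inv_mul, D_one]
  rw [D_cm] at h1
  have h2 : (D (inv a) * cm a + inv a * (cm a * La a)) * inv a = 0 := by rw [h1, zero_mul]
  have h3 : (D (inv a) * cm a + inv a * (cm a * La a)) * inv a = (inv a * cm a) * (D (inv a) + inv a * La a) := by ring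
  rw [h3, inv_mul, one_mul] at h2
  exact eq_neg_of_add_eq_zero_left h2

/-- `a` or `μ a` -/
def E (e : Bool) (a : ℕ →*₀ ℂ) : ArithmeticFunction ℂ := if e then cm a else inv a

/-- the inverse -/
def E' (e : Bool) (a : ℕ →*₀ ℂ) : ArithmeticFunction ℂ := if e then inv a else cm a

def sg (e : Bool) : ℝ := if e then 1 else -1

def Le (e : Bool) (a : ℕ →*₀ ℂ) : ArithmeticFunction ℂ := if e then La a else -La a

theorem E_mul (e : Bool) (a : ℕ →*₀ ℂ) : E e a * E' e a = 1 := by
  cases e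
  · exact inv_mul a
  · exact (mul_comm _ _).trans (inv_mul a)

theorem D_E (e : Bool) (a : ℕ →*₀ ℂ) : D (E e a) = E e a * Le e a := by
  cases e
  · change D (inv a) = inv a * (-La a)
    rw [D_inv]; ring
  · exact D_cm a

theorem Le_apply (e : Bool) (a : ℕ →*₀ ℂ) (n : ℕ) :
    Le e a n = (ArithmeticFunction.vonMangoldt n : ℂ) * (sg e * a n) := by
  cases e
  · change -(La a n) = _
    rw [La_apply]; simp [sg]
  · change La a n = _
    rw [La_apply]; simp [sg]

theorem mo_norm (n : ℕ) : ‖(ArithmeticFunction.moebius n : ℂ)‖ ≤ 1 := by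
  have := ArithmeticFunction.abs_moebius_le_one (n := n)
  rw [← Complex.ofReal_intCast, Complex.norm_real, Real.norm_eq_abs]
  exact_mod_cast this

theorem E_norm (e : Bool) (a : ℕ →*₀ ℂ) (ha : ∀ n, ‖a n‖ ≤ 1) (n : ℕ) : ‖E e a n‖ ≤ 1 := by
  cases e
  · change ‖(ArithmeticFunction.moebius n : ℂ) * a n‖ ≤ 1
    rw [norm_mul]
    exact mul_le_one₀ (mo_norm n) (norm_nonneg _) (ha n)
  · exact ha n

theorem E'_norm (e : Bool) (a : ℕ →*₀ ℂ) (ha : ∀ n, ‖a n‖ ≤ 1) (n : ℕ) : ‖E' e a n‖ ≤ 1 := by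
  cases e
  · exact ha n
  · change ‖(ArithmeticFunction.moebius n : ℂ) * a n‖ ≤ 1
    rw [norm_mul]
    exact mul_le_one₀ (mo_norm n) (norm_nonneg _) (ha n)

theorem E_cj (e : Bool) (a : ℕ →*₀ ℂ) (n : ℕ) : E e (cj a) n = conj (E e a n) := by
  cases e
  · change (ArithmeticFunction.moebius n : ℂ) * conj (a n) = conj ((ArithmeticFunction.moebius n : ℂ) * a n)
    rw [map_mul, map_intCast]
  · rfl

theorem E_prime (e : Bool) (a : ℕ →*₀ ℂ) (p : ℕ) (hp : p.Prime) : E e a p = sg e * a p := by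
  cases e
  · change (ArithmeticFunction.moebius p : ℂ) * a p = _
    rw [ArithmeticFunction.moebius_apply_prime hp]; simp [sg]
  · change a p = _
    simp [sg]

/-- the coefficients of `ζ(s)² A(s) A*(s)` -/
def rr (e : Bool) (a : ℕ →*₀ ℂ) : ArithmeticFunction ℂ := cm triv * cm triv * E e a * E e (cj a)

/-- the coefficients of the inverse -/
def vv (e : Bool) (a : ℕ →*₀ ℂ) : ArithmeticFunction ℂ := inv triv * inv triv * E' e a * E' e (cj a)

/-- the coefficients of minus the logarithmic derivative -/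
def KK (e : Bool) (a : ℕ →*₀ ℂ) : ArithmeticFunction ℂ := La triv + La triv + Le e a + Le e (cj a)

theorem rv (e : Bool) (a : ℕ →*₀ ℂ) : rr e a * vv e a = 1 := by
  have h1 := inv_mul triv
  have h2 := E_mul e a
  have h3 := E_mul e (cj a)
  have : rr e a * vv e a = (inv triv * cm triv) * (inv triv * cm triv) * (E e a * E' e a) *
      (E e (cj a) * E' e (cj a)) := by
    unfold rr vv; ring
  rw [this, h1, h2, h3]
  simp

theorem D_rr (e : Bool) (a : ℕ →*₀ ℂ) : D (rr e a) = rr e a * KK e a := by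
  unfold rr KK
  rw [D_mul, D_mul, D_mul, D_cm, D_E, D_E]
  ring

theorem D_vv (e : Bool) (a : ℕ →*₀ ℂ) : D (vv e a) = -(vv e a * KK e a) := by
  have h1 : D (rr e a) * vv e a + rr e a * D (vv e a) = 0 := by rw [← D_mul, rv, D_one]
  rw [D_rr] at h1
  have h2 : (rr e a * KK e a * vv e a + rr e a * D (vv e a)) * vv e a = 0 := by rw [h1, zero_mul]
  have h3 : (rr e a * KK e a * vv e a + rr e a * D (vv e a)) * vv e a =
    (rr e a * vv e a) * (vv e a * KK e a + D (vv e a)) := by ring
  rw [h3, rv, one_mul] at h2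
  exact eq_neg_of_add_eq_zero_right h2

/-- `Λ(n) (2 + 2 sg Re a(n))` -/
def kk (e : Bool) (a : ℕ →*₀ ℂ) (n : ℕ) : ℝ := ArithmeticFunction.vonMangoldt n * (2 + 2 * (sg e * (a n).re))

theorem KK_eq (e : Bool) (a : ℕ →*₀ ℂ) (n : ℕ) : KK e a n = (kk e a n : ℂ) := by
  unfold KK kk
  rw [ArithmeticFunction.add_apply, ArithmeticFunction.add_apply, ArithmeticFunction.add_apply, La_apply, Le_apply,
    Le_apply, cj_apply]
  by_cases h : n = 0
  · subst h; simp
  · rw [triv_apply h]
    have : conj (a n) = 2 * ((a n).re : ℂ) - a n := by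
      apply Complex.ext <;> simp
      ring
    rw [this]
    push_cast
    ring

theorem sg_abs (e : Bool) (x : ℝ) : |sg e * x| = |x| := by
  cases e <;> simp [sg]

theorem kk_nonneg (e : Bool) (a : ℕ →*₀ ℂ) (ha : ∀ n, ‖a n‖ ≤ 1) (n : ℕ) : 0 ≤ kk e a n := by
  unfold kk
  have h0 : |sg e * (a n).re| ≤ 1 := by
    rw [sg_abs]; exact (Complex.abs_re_le_norm (a n)).trans (ha n)
  have h1 := (abs_le.1 h0).1
  have h2 := ArithmeticFunction.vonMangoldt_nonneg (n := n)
  have : 0 ≤ 2 + 2 * (sg e * (a n).re) := by linarith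
  positivity

theorem kk_one (e : Bool) (a : ℕ →*₀ ℂ) : kk e a 1 = 0 := by simp [kk]

theorem E_one (e : Bool) (a : ℕ →*₀ ℂ) : E e a 1 = 1 := by
  cases e
  · change (ArithmeticFunction.moebius 1 : ℂ) * a 1 = 1
    simp
  · change a 1 = 1
    simp

theorem E'_one (e : Bool) (a : ℕ →*₀ ℂ) : E' e a 1 = 1 := by
  cases e
  · change a 1 = 1
    simp
  · change (ArithmeticFunction.moebius 1 : ℂ) * a 1 = 1
    simp

theorem rr_one (e : Bool) (a : ℕ →*₀ ℂ) : rr e a 1 = 1 := by
  simp [rr, ArithmeticFunction.mul_apply, cm_apply, E_one]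

theorem vv_one (e : Bool) (a : ℕ →*₀ ℂ) : vv e a 1 = 1 := by
  simp [vv, ArithmeticFunction.mul_apply, inv_apply, E'_one]

theorem pos (e : Bool) (a : ℕ →*₀ ℂ) (ha : ∀ n, ‖a n‖ ≤ 1) (n : ℕ) :
    rr e a n = ((rr e a n).re : ℂ) ∧ 0 ≤ (rr e a n).re ∧ ‖vv e a n‖ ≤ (rr e a n).re := by
  induction n using Nat.strong_induction_on with
  | _ n ih =>
    by_cases h0 : n = 0
    · subst h0; simp
    by_cases h1 : n = 1
    · subst h1; rw [rr_one, vv_one]; simp
    have hn2 : 2 ≤ n := by omega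
    have hlog : 0 < Real.log n := Real.log_pos (by exact_mod_cast hn2)
    have hlt : ∀ x ∈ n.divisorsAntidiagonal, x.2 ≠ 1 → x.1 < n := by
      intro x hx hx2
      rw [Nat.mem_divisorsAntidiagonal] at hx
      obtain ⟨e1, e2⟩ := hx
      have hx1 : x.1 ≠ 0 := by rintro h; rw [h, zero_mul] at e1; exact e2 e1.symm
      have hx2' : x.2 ≠ 0 := by rintro h; rw [h, mul_zero] at e1; exact e2 e1.symm
      have : 2 ≤ x.2 := by omega
      rw [← e1]
      nlinarith [Nat.pos_of_ne_zero hx1]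
    have hD := congrArg (fun F : ArithmeticFunction ℂ => F n) (D_rr e a)
    have hV := congrArg (fun F : ArithmeticFunction ℂ => F n) (D_vv e a)
    simp only [D_apply, ArithmeticFunction.mul_apply] at hD
    have hV' : (Real.log n : ℂ) * vv e a n = -∑ x ∈ n.divisorsAntidiagonal, vv e a x.1 * KK e a x.2 := by
      have h := hV
      simp only [D_apply] at h
      rw [h]
      rw [← ArithmeticFunction.mul_apply]
      rfl
    obtain ⟨R, hR⟩ : ∃ R : ℝ, R = ∑ x ∈ n.divisorsAntidiagonal, (rr e a x.1).re * kk e a x.2 := ⟨_, rfl⟩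
    have hterm : ∀ x ∈ n.divisorsAntidiagonal, rr e a x.1 * KK e a x.2 = (((rr e a x.1).re * kk e a x.2 : ℝ) : ℂ) ∧
        0 ≤ (rr e a x.1).re * kk e a x.2 ∧ ‖vv e a x.1 * KK e a x.2‖ ≤ (rr e a x.1).re * kk e a x.2 := by
      intro x hx
      by_cases hx1 : x.2 = 1
      · rw [KK_eq, hx1, kk_one]; simp
      · obtain ⟨i1, i2, i3⟩ := ih x.1 (hlt x hx hx1)
        have hk := kk_nonneg e a ha x.2
        refine ⟨?_, mul_nonneg i2 hk, ?_⟩
        · rw [KK_eq, i1]; push_cast; simp
        · rw [KK_eq, norm_mul, Complex.norm_real, Real.norm_of_nonneg hk]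
          exact mul_le_mul_of_nonneg_right i3 hk
    have hsum : (Real.log n : ℂ) * rr e a n = (R : ℂ) := by
      rw [hD, hR]
      push_cast
      refine Finset.sum_congr rfl fun x hx => ?_
      rw [(hterm x hx).1]; push_cast; rfl
    have hR0 : 0 ≤ R := by rw [hR]; exact Finset.sum_nonneg fun x hx => (hterm x hx).2.1
    have hlogC : (Real.log n : ℂ) ≠ 0 := by exact_mod_cast hlog.ne'
    have hrr : rr e a n = ((R / Real.log n : ℝ) : ℂ) := by
      rw [Complex.ofReal_div, eq_div_iff hlogC, mul_comm]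
      exact hsum
    have hre : (rr e a n).re = R / Real.log n := by rw [hrr, Complex.ofReal_re]
    refine ⟨by rw [hre]; exact hrr, by rw [hre]; positivity, ?_⟩
    rw [hre, le_div_iff₀ hlog]
    have h5 : ‖vv e a n‖ * Real.log n = ‖(Real.log n : ℂ) * vv e a n‖ := by
      rw [norm_mul, Complex.norm_real, Real.norm_of_nonneg hlog.le, mul_comm]
    rw [h5, hV', norm_neg, hR]
    exact (norm_sum_le _ _).trans (Finset.sum_le_sum fun x hx => (hterm x hx).2.2)

theorem rr_prime (e : Bool) (a : ℕ →*₀ ℂ) (p : ℕ) (hp : p.Prime) : (rr e a p).re = 2 + 2 * (E e a p).re := by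
  have hD := congrArg (fun F : ArithmeticFunction ℂ => F p) (D_rr e a)
  simp only [D_apply, ArithmeticFunction.mul_apply] at hD
  rw [Nat.sum_divisorsAntidiagonal (f := fun x y => rr e a x * KK e a y), hp.sum_divisors] at hD
  simp only [Nat.div_self hp.pos, Nat.div_one, rr_one, KK_eq, kk_one] at hD
  have hlog : 0 < Real.log p := Real.log_pos (by exact_mod_cast hp.one_lt)
  have hlogC : (Real.log p : ℂ) ≠ 0 := by exact_mod_cast hlog.ne'
  have h2 : (Real.log p : ℂ) * rr e a p = (Real.log p : ℂ) * ((2 + 2 * (E e a p).re : ℝ) : ℂ) := by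
    rw [hD]
    unfold kk
    have h3 : (E e a p).re = sg e * (a p).re := by rw [E_prime e a p hp, Complex.re_ofReal_mul]
    rw [ArithmeticFunction.vonMangoldt_apply_prime hp, h3]
    push_cast
    ring
  rw [mul_left_cancel₀ hlogC h2, Complex.ofReal_re]

end

end Pool.Agent.U73.ZF
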