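import Pool.Agent.H353R2.P4
import Pool.Agent.U73.ZF.Ar

set_option autoImplicit false

/-! A zero on the line `Re s = 1` of a unimodularly bounded Euler product with a continuation -/

namespace Pool.Agent.U73.ZF

open Complex Filter Topology Set
open scoped ComplexConjugate

noncomputable section

/-- the twist by `n ^ (-i t)` -/
def tw (f : ℕ →*₀ ℂ) (t : ℝ) : ℕ →*₀ ℂ where
  toFun n := f n * (n : ℂ) ^ (-((t : ℂ) * I))
  map_zero' := by simp
  map_one' := by simp
  map_mul' := by
    intro m n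
    rw [map_mul, Nat.cast_mul, Complex.natCast_mul_natCast_cpow]
    ring

theorem tw_apply (f : ℕ →*₀ ℂ) (t : ℝ) (n : ℕ) : tw f t n = f n * (n : ℂ) ^ (-((t : ℂ) * I)) := rfl

theorem tw_norm (f : ℕ →*₀ ℂ) (hf : ∀ n, ‖f n‖ ≤ 1) (t : ℝ) (n : ℕ) : ‖tw f t n‖ ≤ 1 := by
  rcases Nat.eq_zero_or_pos n with h | h
  · subst h; rw [map_zero]; simp
  · rw [tw_apply, norm_mul, Complex.norm_natCast_cpow_of_pos h]
    simpa using hf n

theorem E_tw (e : Bool) (f : ℕ →*₀ ℂ) (t : ℝ) (n : ℕ) : E e (tw f t) n = E e f n * (n : ℂ) ^ (-((t : ℂ) * I)) := by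
  cases e
  · change (ArithmeticFunction.moebius n : ℂ) * tw f t n = (ArithmeticFunction.moebius n : ℂ) * f n * _
    rw [tw_apply]; ring
  · rfl

theorem LS_tw (f : ℕ → ℂ) (t : ℝ) (s : ℂ) :
    LSeries (fun n => f n * (n : ℂ) ^ (-((t : ℂ) * I))) s = LSeries (fun n => f n) (s + t * I) := by
  unfold LSeries
  refine tsum_congr fun n => ?_
  rcases Nat.eq_zero_or_pos n with h | h
  · subst h; simp
  · rw [LSeries.term_of_ne_zero (by omega), LSeries.term_of_ne_zero (by omega)]
    have hn : (n : ℂ) ≠ 0 := by exact_mod_cast (by omega : n ≠ 0)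
    have h1 : (n : ℂ) ^ ((t : ℂ) * I) ≠ 0 := by
      rw [Complex.cpow_def_of_ne_zero hn]; exact Complex.exp_ne_zero _
    have h2 : (n : ℂ) ^ s ≠ 0 := by
      rw [Complex.cpow_def_of_ne_zero hn]; exact Complex.exp_ne_zero _
    rw [Complex.cpow_add _ _ hn, Complex.cpow_neg]
    field_simp

theorem LS_cj (f : ℕ → ℂ) (s : ℂ) : LSeries (fun n => conj (f n)) s = conj (LSeries f (conj s)) := by
  unfold LSeries
  rw [Complex.conj_tsum]
  refine tsum_congr fun n => ?_
  rcases Nat.eq_zero_or_pos n with h | h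
  · subst h; simp
  · rw [LSeries.term_of_ne_zero (by omega), LSeries.term_of_ne_zero (by omega), map_div₀]
    congr 1
    rw [Complex.cpow_conj, Complex.conj_natCast, Complex.conj_conj]
    rw [Complex.natCast_arg]
    exact Real.pi_pos.ne

theorem summE (e : Bool) (a : ℕ →*₀ ℂ) (ha : ∀ n, ‖a n‖ ≤ 1) (s : ℂ) (hs : 1 < s.re) :
    LSeriesSummable (fun n => E e a n) s :=
  LSeriesSummable_of_bounded_of_one_lt_re (m := 1) (fun n _ => E_norm e a ha n) hs

theorem triv_norm (n : ℕ) : ‖triv n‖ ≤ 1 := by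
  rcases Nat.eq_zero_or_pos n with h | h
  · subst h; rw [map_zero]; simp
  · rw [triv_apply (by omega)]; simp

theorem triv_LS (s : ℂ) (hs : 1 < s.re) : LSeriesSummable (fun n => cm triv n) s ∧
    LSeries (fun n => cm triv n) s = riemannZeta s := by
  refine ⟨LSeriesSummable_of_bounded_of_one_lt_re (m := 1) (fun n _ => triv_norm n) hs, ?_⟩
  rw [← LSeries_one_eq_riemannZeta hs]
  refine LSeries_congr (fun {n} hn => ?_) s
  rw [cm_apply, triv_apply hn]
  rfl

theorem cj_norm (a : ℕ →*₀ ℂ) (ha : ∀ n, ‖a n‖ ≤ 1) (n : ℕ) : ‖cj a n‖ ≤ 1 := by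
  rw [cj_apply, Complex.norm_conj]; exact ha n

theorem rr_LS (e : Bool) (a : ℕ →*₀ ℂ) (ha : ∀ n, ‖a n‖ ≤ 1) (s : ℂ) (hs : 1 < s.re) :
    LSeriesSummable (fun n => rr e a n) s ∧ LSeries (fun n => rr e a n) s =
      riemannZeta s * riemannZeta s * LSeries (fun n => E e a n) s * LSeries (fun n => conj (E e a n)) s := by
  have h1 := (triv_LS s hs).1
  have h2 := summE e a ha s hs
  have h3 := summE e (cj a) (cj_norm a ha) s hs
  have h11 := ArithmeticFunction.LSeriesSummable_mul h1 h1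
  have h112 := ArithmeticFunction.LSeriesSummable_mul h11 h2
  refine ⟨ArithmeticFunction.LSeriesSummable_mul h112 h3, ?_⟩
  unfold rr
  rw [ArithmeticFunction.LSeries_mul' h112 h3, ArithmeticFunction.LSeries_mul' h11 h2,
    ArithmeticFunction.LSeries_mul' h1 h1, (triv_LS s hs).2]
  simp only [E_cj]

/-- the core: `A` continues the series analytically to `Re s > κ` and `A 1 = 0` -/
theorem core1 (e : Bool) (a : ℕ →*₀ ℂ) (ha : ∀ n, ‖a n‖ ≤ 1) (κ : ℝ) (hκ : κ < 1) (A : ℂ → ℂ)
    (hA : DifferentiableOn ℂ A {s | κ < s.re}) (hAe : ∀ s, 1 < s.re → A s = LSeries (fun n => E e a n) s)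
    (h0 : A 1 = 0) :
    (∀ σ : ℝ, κ < σ → Summable (fun n : ℕ => (rr e a n).re / (n : ℝ) ^ σ)) ∧
    (∀ s : ℂ, κ < s.re → riemannZeta s ≠ 0) ∧ (∀ s : ℂ, κ < s.re → A s = 0 → s = 1) ∧ deriv A 1 ≠ 0 := by
  set U : Set ℂ := {s : ℂ | κ < s.re} with hU
  have hUo : IsOpen U := isOpen_lt continuous_const Complex.continuous_re
  have h1U : (1:ℂ) ∈ U := by show κ < (1:ℂ).re; simpa using hκ
  have hne1 : ∀ s : ℂ, 1 < s.re → s ≠ 1 := by
    rintro s hs rfl
    simp at hs
  set B : ℂ → ℂ := fun s => conj (A (conj s)) with hB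
  have hBd : DifferentiableOn ℂ B U := by
    intro s hs
    have hs' : conj s ∈ U := by show κ < (conj s).re; rw [Complex.conj_re]; exact hs
    have h1 : DifferentiableAt ℂ A (conj s) := (hA _ hs').differentiableAt (hUo.mem_nhds hs')
    have h2 := h1.conj_conj
    rw [Complex.conj_conj] at h2
    exact h2.differentiableWithinAt
  have hB0 : B 1 = 0 := by rw [hB]; simp [h0]
  have hBe : ∀ s, 1 < s.re → B s = LSeries (fun n => conj (E e a n)) s := by
    intro s hs
    rw [LS_cj, hB]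
    simp only
    rw [hAe _ (by rw [Complex.conj_re]; exact hs)]
  have hdA : DifferentiableOn ℂ (dslope A 1) U := (Complex.differentiableOn_dslope (hUo.mem_nhds h1U)).2 hA
  have hdB : DifferentiableOn ℂ (dslope B 1) U := (Complex.differentiableOn_dslope (hUo.mem_nhds h1U)).2 hBd
  set G : ℂ → ℂ := fun s => H353.FF s * H353.FF s * dslope A 1 s * dslope B 1 s with hG
  have hFFd : DifferentiableOn ℂ H353.FF U := ZU.J_g2b.FF_diff.differentiableOn
  have hGd : DifferentiableOn ℂ G U := ((hFFd.mul hFFd).mul hdA).mul hdB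
  have hGe0 : ∀ s : ℂ, s ≠ 1 → G s = riemannZeta s * riemannZeta s * A s * B s := by
    intro s hs
    rw [hG]
    simp only
    rw [dslope_of_ne _ hs, dslope_of_ne _ hs, slope_def_field, slope_def_field, h0, hB0,
      show H353.FF s = (s - 1) * riemannZeta s from ZU.J_g2b.FF_ne hs]
    have hs1 : s - 1 ≠ 0 := sub_ne_zero.2 hs
    field_simp
    ring
  have hGe : ∀ s : ℂ, 1 < s.re → G s = LSeries (fun n => rr e a n) s := by
    intro s hs
    rw [(rr_LS e a ha s hs).2, hGe0 s (hne1 s hs), hAe s hs, hBe s hs]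
  have hpos := pos e a ha
  have hfun : (fun n => (((rr e a n).re : ℝ) : ℂ)) = fun n => rr e a n := by
    funext n; exact (hpos n).1.symm
  have hL : ∀ σ : ℝ, κ < σ → LSeriesSummable (fun n => rr e a n) σ := by
    intro σ hσ
    have := H353.landau_half (fun n => (rr e a n).re) (fun n => (hpos n).2.1) G κ hκ hGd
      (fun s hs => by rw [hfun]; exact (rr_LS e a ha s hs).1) (fun s hs => by rw [hfun]; exact hGe s hs) σ hσ
    rw [hfun] at this
    exact this
  have hLs : ∀ s : ℂ, κ < s.re → LSeriesSummable (fun n => rr e a n) s := fun s hs =>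
    (hL s.re hs).of_re_le_re (by simp)
  have hVs : ∀ s : ℂ, κ < s.re → LSeriesSummable (fun n => vv e a n) s := by
    intro s hs
    refine Summable.of_norm_bounded (hLs s hs).norm fun n => LSeries.norm_term_le s ?_
    rw [(hpos n).1, Complex.norm_real, Real.norm_of_nonneg (hpos n).2.1]
    exact (hpos n).2.2
  have hRV : ∀ s : ℂ, κ < s.re → LSeries (fun n => rr e a n) s * LSeries (fun n => vv e a n) s = 1 := by
    intro s hs
    rw [← ArithmeticFunction.LSeries_mul' (hLs s hs) (hVs s hs), rv]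
    rw [show (fun n => (1 : ArithmeticFunction ℂ) n) = LSeries.delta from ArithmeticFunction.one_eq_delta,
      LSeries_delta]
    rfl
  have hUc : IsPreconnected U := (convex_halfSpace_re_gt κ).isPreconnected
  have hEq : EqOn G (LSeries (fun n => rr e a n)) U := by
    have hab : LSeries.abscissaOfAbsConv (fun n => rr e a n) ≤ κ :=
      LSeries.abscissaOfAbsConv_le_of_forall_lt_LSeriesSummable fun y hy => hL y hy
    have hRan : AnalyticOnNhd ℂ (LSeries (fun n => rr e a n)) U := by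
      refine (LSeries_analyticOnNhd (fun n => rr e a n)).mono ?_
      intro s hs
      refine lt_of_le_of_lt hab ?_
      exact_mod_cast hs
    refine (hGd.analyticOnNhd hUo).eqOn_of_preconnected_of_eventuallyEq hRan hUc
      (z₀ := 2) (by show κ < (2:ℂ).re; simp; linarith) ?_
    have : {s : ℂ | 1 < s.re} ∈ 𝓝 (2:ℂ) :=
      (isOpen_lt continuous_const Complex.continuous_re).mem_nhds (by simp)
    filter_upwards [this] with s hs
    exact hGe s hs
  have hG0 : ∀ s ∈ U, G s ≠ 0 := by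
    intro s hs h
    have := hRV s hs
    rw [← hEq hs, h, zero_mul] at this
    exact zero_ne_one this
  refine ⟨?_, ?_, ?_, ?_⟩
  · intro σ hσ
    refine H353.summ_of_LS ⟨fun n => (rr e a n).re, by simp⟩ (fun n => (hpos n).2.1) σ ?_
    have := hL σ hσ
    rw [← hfun] at this
    exact this
  · intro s hs hz
    have hs1 : s ≠ 1 := by rintro rfl; exact riemannZeta_one_ne_zero hz
    apply hG0 s hs
    rw [hGe0 s hs1, hz]; ring
  · intro s hs hz
    by_contra hs1
    apply hG0 s hs
    rw [hGe0 s hs1, hz]; ring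
  · intro h
    apply hG0 1 h1U
    rw [hG]
    simp only [dslope_same, h]
    ring

end

end Pool.Agent.U73.ZF
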