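import Pool.Agent.U73.ZF.An

set_option autoImplicit false

/-! The twisted theorem, and vanishing from the prime sum -/

namespace Pool.Agent.U73.ZF

open Complex Filter Topology Set
open scoped ComplexConjugate

noncomputable section

theorem core2 (e : Bool) (f : ℕ →*₀ ℂ) (hf : ∀ n, ‖f n‖ ≤ 1) (κ : ℝ) (hκ : κ < 1) (F : ℂ → ℂ)
    (hF : DifferentiableOn ℂ F {s | κ < s.re}) (hFe : ∀ s, 1 < s.re → F s = LSeries (fun n => E e f n) s)
    (t : ℝ) (h0 : F (1 + t * I) = 0) :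
    1 / 2 ≤ κ ∧ (∀ s : ℂ, κ < s.re → riemannZeta s ≠ 0) ∧ (∀ s : ℂ, κ < s.re → F s = 0 → s = 1 + t * I) ∧
    deriv F (1 + t * I) ≠ 0 ∧ ∀ σ : ℝ, κ < σ →
      Summable (fun p : Nat.Primes => (1 + (E e f p * ((p : ℕ) : ℂ) ^ (-((t : ℂ) * I))).re) / ((p : ℕ) : ℝ) ^ σ) := by
  set A : ℂ → ℂ := fun s => F (s + t * I) with hA
  have hre : ∀ s : ℂ, (s + t * I).re = s.re := by intro s; simp
  have hAd : DifferentiableOn ℂ A {s | κ < s.re} := by
    refine hF.comp (by fun_prop) ?_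
    intro s hs
    show κ < (s + t * I).re
    rw [hre]; exact hs
  have hAe : ∀ s, 1 < s.re → A s = LSeries (fun n => E e (tw f t) n) s := by
    intro s hs
    have h1 : (fun n => E e (tw f t) n) = fun n : ℕ => E e f n * (n : ℂ) ^ (-((t : ℂ) * I)) := by
      funext n; exact E_tw e f t n
    rw [h1, LS_tw, hA]
    simp only
    exact hFe _ (by rw [hre]; exact hs)
  obtain ⟨c1, c2, c3, c4⟩ := core1 e (tw f t) (tw_norm f hf t) κ hκ A hAd hAe h0
  refine ⟨?_, c2, ?_, ?_, ?_⟩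
  · obtain ⟨ρ, r0, r1, _, _, _⟩ := H332.FL.exists_zero_re_ge_half 0
    by_contra hcon
    push Not at hcon
    exact c2 ρ (by linarith) r0
  · intro s hs hz
    have h1 := c3 (s - t * I) (by
      have := hre (s - t * I)
      rw [sub_add_cancel] at this
      rw [← this]; exact hs) (by rw [hA]; simpa using hz)
    rw [← h1]; ring
  · intro h
    apply c4
    rw [hA, deriv_comp_add_const]
    exact h
  · intro σ hσ
    have h1 := ((c1 σ hσ).comp_injective Nat.Primes.coe_nat_injective).mul_left (1 / 2)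
    refine h1.congr fun p => ?_
    simp only [Function.comp_apply]
    rw [rr_prime e (tw f t) p p.2, E_tw]
    ring

/-- `a(n) n ^ (-σ)` -/
def wt (a : ℕ →*₀ ℂ) (σ : ℝ) : ℕ →*₀ ℂ where
  toFun n := a n * (n : ℂ) ^ (-(σ : ℂ))
  map_zero' := by simp
  map_one' := by simp
  map_mul' := by
    intro m n
    rw [map_mul, Nat.cast_mul, Complex.natCast_mul_natCast_cpow]
    ring

theorem wt_apply (a : ℕ →*₀ ℂ) (σ : ℝ) (n : ℕ) : wt a σ n = a n * (n : ℂ) ^ (-(σ : ℂ)) := rfl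

theorem wt_norm (a : ℕ →*₀ ℂ) (ha : ∀ n, ‖a n‖ ≤ 1) (σ : ℝ) (n : ℕ) (hn : 0 < n) : ‖wt a σ n‖ ≤ (n : ℝ) ^ (-σ) := by
  rw [wt_apply, norm_mul, Complex.norm_natCast_cpow_of_pos hn]
  simp only [neg_re, ofReal_re]
  exact mul_le_of_le_one_left (by positivity) (ha n)

theorem wt_sum (a : ℕ →*₀ ℂ) (ha : ∀ n, ‖a n‖ ≤ 1) (σ : ℝ) (hσ : 1 < σ) :
    Summable (fun n => ‖wt a σ n‖) ∧ ∑' n, wt a σ n = LSeries (fun n => cm a n) σ := by
  have h1 : ∀ n, LSeries.term (fun n => cm a n) (σ : ℂ) n = wt a σ n := by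
    intro n
    rcases Nat.eq_zero_or_pos n with h | h
    · subst h; simp
    · rw [LSeries.term_of_ne_zero (by omega), wt_apply, cm_apply, Complex.cpow_neg, div_eq_mul_inv]
  have h2 := summE true a ha (σ : ℂ) (by simpa using hσ)
  have h3 : Summable (fun n => LSeries.term (fun n => cm a n) (σ : ℂ) n) := h2
  refine ⟨?_, ?_⟩
  · have := h3.norm
    simpa only [h1] using this
  · unfold LSeries
    exact tsum_congr fun n => (h1 n).symm

/-- the logarithm -/
def Lg (a : ℕ →*₀ ℂ) (σ : ℝ) : ℂ := ∑' p : Nat.Primes, -log (1 - wt a σ p)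

theorem exp_Lg (a : ℕ →*₀ ℂ) (ha : ∀ n, ‖a n‖ ≤ 1) (σ : ℝ) (hσ : 1 < σ) :
    exp (Lg a σ) = LSeries (fun n => cm a n) σ := by
  rw [← (wt_sum a ha σ hσ).2]
  exact EulerProduct.exp_tsum_primes_log_eq_tsum (wt_sum a ha σ hσ).1

theorem log_bd (w : ℂ) (hw : ‖w‖ ≤ 1 / 2) : |(-log (1 - w)).re - w.re| ≤ ‖w‖ ^ 2 := by
  have h1 := Complex.norm_log_one_add_sub_self_le (z := -w) (by rw [norm_neg]; linarith)
  rw [norm_neg] at h1
  have h2 : |(-log (1 - w)).re - w.re| ≤ ‖log (1 + -w) - -w‖ := by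
    have h3 : (-log (1 - w)).re - w.re = -(log (1 + -w) - -w).re := by
      rw [← sub_eq_add_neg]; simp; ring
    rw [h3, abs_neg]
    exact Complex.abs_re_le_norm _
  refine h2.trans (h1.trans ?_)
  have h4 : (1 - ‖w‖)⁻¹ ≤ 2 := by
    rw [inv_le_comm₀ (by linarith) (by norm_num)]; linarith
  have h5 := sq_nonneg ‖w‖
  nlinarith

theorem Lg_re (a : ℕ →*₀ ℂ) (ha : ∀ n, ‖a n‖ ≤ 1) (σ : ℝ) (hσ : 1 < σ) :
    Summable (fun p : Nat.Primes => (-log (1 - wt a σ p)).re) ∧
      (Lg a σ).re = ∑' p : Nat.Primes, (-log (1 - wt a σ p)).re := by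
  have h1 : Summable (fun p : Nat.Primes => -log (1 - wt a σ p)) := by
    have := ((wt_sum a ha σ hσ).1.of_norm.clog_one_sub.neg).comp_injective Nat.Primes.coe_nat_injective
    exact this
  exact ⟨Complex.reCLM.summable h1, Complex.re_tsum h1⟩

theorem LS_norm (e : Bool) (a : ℕ →*₀ ℂ) (ha : ∀ n, ‖a n‖ ≤ 1) (σ : ℝ) (hσ : 1 < σ) :
    ‖LSeries (fun n => E e a n) σ‖ = Real.exp (sg e * (Lg a σ).re) := by
  have h1 := exp_Lg a ha σ hσ
  cases e
  · have h2 := summE false a ha (σ : ℂ) (by simpa using hσ)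
    have h3 := summE true a ha (σ : ℂ) (by simpa using hσ)
    have h4 : LSeries (fun n => E false a n) σ * LSeries (fun n => E true a n) σ = 1 := by
      rw [← ArithmeticFunction.LSeries_mul' h2 h3]
      rw [show E false a * E true a = 1 from E_mul false a]
      rw [show (fun n => (1 : ArithmeticFunction ℂ) n) = LSeries.delta from ArithmeticFunction.one_eq_delta,
        LSeries_delta]
      rfl
    have h5 : LSeries (fun n => E true a n) σ = exp (Lg a σ) := h1.symm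
    rw [h5] at h4
    have h6 : LSeries (fun n => E false a n) σ = exp (-(Lg a σ)) := by
      rw [Complex.exp_neg]
      exact eq_inv_of_mul_eq_one_left h4
    rw [h6, Complex.norm_exp]
    simp [sg]
  · have h5 : LSeries (fun n => E true a n) σ = exp (Lg a σ) := h1.symm
    rw [h5, Complex.norm_exp]
    simp [sg]

/-- vanishing at `1` from the sum over the primes -/
theorem vanish (e : Bool) (a : ℕ →*₀ ℂ) (ha : ∀ n, ‖a n‖ ≤ 1)
    (hs : Summable (fun p : Nat.Primes => (1 + (E e a p).re) / ((p : ℕ) : ℝ))) :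
    Tendsto (fun σ : ℝ => LSeries (fun n => E e a n) σ) (𝓝[>] 1) (𝓝 0) := by
  have hsq : Summable (fun p : Nat.Primes => 2 / ((p : ℕ) : ℝ) ^ 2) := by
    have h1 : Summable (fun n : ℕ => (1 : ℝ) / (n : ℝ) ^ 2) := Real.summable_one_div_nat_pow.2 (by norm_num)
    have h2 := (h1.comp_injective Nat.Primes.coe_nat_injective).mul_left 2
    refine h2.congr fun p => ?_
    simp only [Function.comp_apply]; ring
  set M : ℝ := ∑' p : Nat.Primes, ((1 + (E e a p).re) / ((p : ℕ) : ℝ) + 2 / ((p : ℕ) : ℝ) ^ 2) with hM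
  have hbd : ∀ σ : ℝ, 1 < σ → ‖LSeries (fun n => E e a n) σ‖ * ‖riemannZeta σ‖ ≤ Real.exp M := by
    intro σ hσ
    have hz : ‖riemannZeta σ‖ = Real.exp ((Lg triv σ).re) := by
      have := LS_norm true triv triv_norm σ hσ
      rw [show sg true = 1 from rfl, one_mul] at this
      rw [← this, ← (triv_LS (σ : ℂ) (by simpa using hσ)).2]
      rfl
    rw [hz, LS_norm e a ha σ hσ, ← Real.exp_add, Real.exp_le_exp]
    obtain ⟨a1, a2⟩ := Lg_re a ha σ hσ
    obtain ⟨b1, b2⟩ := Lg_re triv triv_norm σ hσ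
    rw [a2, b2, ← tsum_mul_left, ← (a1.mul_left _).tsum_add b1]
    refine Summable.tsum_le_tsum ?_ ((a1.mul_left _).add b1) (hs.add hsq)
    intro p
    have hp2 : (2 : ℝ) ≤ (p : ℕ) := by exact_mod_cast p.2.two_le
    have hp0 : (0 : ℝ) < (p : ℕ) := by linarith
    obtain ⟨x, hx⟩ : ∃ x : ℝ, x = ((p : ℕ) : ℝ) ^ (-σ) := ⟨_, rfl⟩
    have hx0 : 0 < x := by rw [hx]; positivity
    have hx1 : x ≤ 1 / (p : ℕ) := by
      rw [hx, one_div, ← Real.rpow_neg_one]
      exact Real.rpow_le_rpow_of_exponent_le (by linarith) (by linarith)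
    have hx2 : x ≤ 1 / 2 := hx1.trans (by
      rw [div_le_div_iff₀ hp0 (by norm_num)]; linarith)
    have na := wt_norm a ha σ p p.2.pos
    have nt := wt_norm triv triv_norm σ p p.2.pos
    rw [← hx] at na nt
    have la := log_bd (wt a σ p) (na.trans hx2)
    have lt := log_bd (wt triv σ p) (nt.trans hx2)
    have hcp : (((p : ℕ) : ℂ) ^ (-(σ : ℂ))) = (x : ℂ) := by
      rw [hx, Complex.ofReal_cpow hp0.le]; push_cast; rfl
    have ra : (wt a σ p).re = (a p).re * x := by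
      rw [wt_apply, hcp, Complex.re_mul_ofReal]
    have rt : (wt triv σ p).re = x := by
      rw [wt_apply, hcp, triv_apply p.2.ne_zero]; simp
    have hE : (E e a p).re = sg e * (a p).re := by rw [E_prime e a p p.2, Complex.re_ofReal_mul]
    have hEl : -1 ≤ (E e a p).re :=
      (abs_le.1 ((Complex.abs_re_le_norm _).trans (E_norm e a ha p))).1
    have la2 : sg e * (-log (1 - wt a σ p)).re ≤ sg e * (wt a σ p).re + x ^ 2 := by
      have h1 : |sg e * ((-log (1 - wt a σ p)).re - (wt a σ p).re)| ≤ x ^ 2 := by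
        rw [sg_abs]
        exact la.trans (by gcongr)
      have := (abs_le.1 h1).2
      linarith
    have lt2 : (-log (1 - wt triv σ p)).re ≤ (wt triv σ p).re + x ^ 2 := by
      have := (abs_le.1 (lt.trans (show ‖wt triv σ p‖ ^ 2 ≤ x ^ 2 by gcongr))).2
      linarith
    have h9 : sg e * (wt a σ p).re = (E e a p).re * x := by rw [ra, hE]; ring
    have h10 : (1 + (E e a p).re) * x ≤ (1 + (E e a p).re) / (p : ℕ) := by
      rw [div_eq_mul_one_div]
      exact mul_le_mul_of_nonneg_left hx1 (by linarith)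
    have h11 : x ^ 2 ≤ 1 / ((p : ℕ) : ℝ) ^ 2 := by
      calc x ^ 2 ≤ (1 / ((p : ℕ) : ℝ)) ^ 2 := by gcongr
        _ = _ := by rw [div_pow, one_pow]
    have h12 : 2 / ((p : ℕ) : ℝ) ^ 2 = 2 * (1 / ((p : ℕ) : ℝ) ^ 2) := by ring
    rw [rt] at lt2
    rw [h12]
    linarith
  -- conclusion
  have hres : Tendsto (fun σ : ℝ => ‖((σ : ℂ) - 1) * riemannZeta σ‖) (𝓝[>] 1) (𝓝 1) := by
    have h1 := riemannZeta_residue_one
    have h2 : Tendsto (fun σ : ℝ => (σ : ℂ)) (𝓝[>] 1) (𝓝[≠] 1) := by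
      refine tendsto_nhdsWithin_iff.2 ⟨?_, ?_⟩
      · have : Tendsto (fun σ : ℝ => (σ : ℂ)) (𝓝 1) (𝓝 ((1 : ℝ) : ℂ)) := Complex.continuous_ofReal.continuousAt
        rw [Complex.ofReal_one] at this
        exact this.mono_left nhdsWithin_le_nhds
      · filter_upwards [self_mem_nhdsWithin] with σ hσ
        have hσ' : (1 : ℝ) < σ := hσ
        simp only [mem_compl_iff, mem_singleton_iff]
        intro h
        have : σ = 1 := by exact_mod_cast h
        linarith
    have := (h1.comp h2).norm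
    simpa using this
  rw [tendsto_zero_iff_norm_tendsto_zero]
  have hub : Tendsto (fun σ : ℝ => Real.exp M * (σ - 1) / ‖((σ : ℂ) - 1) * riemannZeta σ‖) (𝓝[>] 1) (𝓝 0) := by
    have h1 : Tendsto (fun σ : ℝ => Real.exp M * (σ - 1)) (𝓝[>] 1) (𝓝 (Real.exp M * (1 - 1))) :=
      ((continuous_const.mul (continuous_id.sub continuous_const)).tendsto 1).mono_left nhdsWithin_le_nhds
    have h2 := h1.div hres one_ne_zero
    rw [sub_self, mul_zero, zero_div] at h2
    exact h2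
  refine tendsto_of_tendsto_of_tendsto_of_le_of_le' tendsto_const_nhds hub
    (Eventually.of_forall fun σ => norm_nonneg _) ?_
  filter_upwards [self_mem_nhdsWithin] with σ hσ
  have hσ1 : (1 : ℝ) < σ := hσ
  have h1 := hbd σ hσ1
  have hz0 : riemannZeta σ ≠ 0 := riemannZeta_ne_zero_of_one_lt_re (by simpa using hσ1)
  have hz : 0 < ‖riemannZeta σ‖ := norm_pos_iff.2 hz0
  have h2 : ‖((σ : ℂ) - 1) * riemannZeta σ‖ = (σ - 1) * ‖riemannZeta σ‖ := by
    rw [norm_mul, ← Complex.ofReal_one, ← Complex.ofReal_sub, Complex.norm_real, Real.norm_of_nonneg (by linarith)]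
  have h3 : 0 < σ - 1 := by linarith
  rw [h2, mul_comm (σ - 1), mul_div_mul_right _ _ h3.ne', le_div_iff₀ hz]
  exact h1

end

end Pool.Agent.U73.ZF
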